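import Pool.Agent.H430.Cl.Fin

/-!
The discriminant of the field and the discriminants of the points.
-/

set_option autoImplicit false

namespace Pool.Agent.H430.Dk

open Finset NumberField IsDedekindDomain Height Module Polynomial
open Pool.Agent.W180.OP (Pl av wt)
open Pool.Agent.NH28 (Ov ab mem_ab ov_unique exists_below)
open Pool.Agent.H430.Cl (prod_pl height_pl dsc)

/-- the logarithm of the norm of the part at `w` of the different of `L` over `K` -/
noncomputable def dif (K : Type) {L : Type} [Field K] [NumberField K] [Field L] [NumberField L]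
    [Algebra K L] : Pl L → ℝ
  | Sum.inl _ => 0
  | Sum.inr w => multiplicity w.asIdeal (differentIdeal (𝓞 K) (𝓞 L)) *
      Real.log (Ideal.absNorm w.asIdeal)

variable {K L : Type} [Field K] [NumberField K] [Field L] [NumberField L] [Algebra K L]

lemma dif_nonneg (w : Pl L) : 0 ≤ dif K w := by
  cases w with
  | inl w => exact le_rfl
  | inr w => exact mul_nonneg (Nat.cast_nonneg _) (Real.log_natCast_nonneg _)

lemma dif_sum : ∃ F : Finset (HeightOneSpectrum (𝓞 L)), (∀ w ∉ F, dif K (Sum.inr w : Pl L) = 0) ∧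
    ∑ w ∈ F, dif K (Sum.inr w : Pl L) = Real.log |(discr L : ℝ)| -
      finrank K L * Real.log |(discr K : ℝ)| := by
  classical
  set I := differentIdeal (𝓞 K) (𝓞 L) with hI
  have hI0 : I ≠ ⊥ := differentIdeal_ne_bot
  have hfin : Function.HasFiniteMulSupport fun p : HeightOneSpectrum (𝓞 L) =>
      p.asIdeal ^ multiplicity p.asIdeal I := by
    have h := Ideal.hasFiniteMulSupport (R := 𝓞 L) hI0
    have h2 : (fun p : HeightOneSpectrum (𝓞 L) => p.maxPowDividing I) =
        fun p : HeightOneSpectrum (𝓞 L) => p.asIdeal ^ multiplicity p.asIdeal I :=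
      funext fun p => p.maxPowDividing_eq_pow_multiplicity hI0
    rwa [h2] at h
  have h1 := Ideal.finprod_heightOneSpectrum_pow_multiplicity hI0
  have hfin' : (Function.mulSupport fun p : HeightOneSpectrum (𝓞 L) =>
      p.asIdeal ^ multiplicity p.asIdeal I).Finite := hfin
  rw [finprod_eq_prod_of_mulSupport_subset (s := hfin'.toFinset) _ (by
    rw [Set.Finite.coe_toFinset])] at h1
  refine ⟨hfin'.toFinset, ?_, ?_⟩
  · intro w hw
    rw [Set.Finite.mem_toFinset, Function.mem_mulSupport, not_not] at hw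
    have h2 := congrArg Ideal.absNorm hw
    rw [map_pow, Ideal.one_eq_top, Ideal.absNorm_top] at h2
    have h3 := congrArg (fun n : ℕ => Real.log (n : ℝ)) h2
    simp only [Nat.cast_pow, Real.log_pow, Nat.cast_one, Real.log_one] at h3
    exact h3
  · have h2 := congrArg Ideal.absNorm h1
    rw [map_prod] at h2
    have h3 := natAbs_discr_eq_absNorm_differentIdeal_mul_natAbs_discr_pow K (𝓞 K) L (𝓞 L)
    rw [← hI] at h3
    have hK : (discr K).natAbs ≠ 0 := Int.natAbs_ne_zero.2 (discr_ne_zero K)
    have hIn : Ideal.absNorm I ≠ 0 := by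
      intro h
      rw [h, zero_mul] at h3
      exact Int.natAbs_ne_zero.2 (discr_ne_zero L) h3
    have h4 : Real.log |(discr L : ℝ)| =
        Real.log (Ideal.absNorm I) + finrank K L * Real.log |(discr K : ℝ)| := by
      have e1 : |(discr L : ℝ)| = ((discr L).natAbs : ℝ) := by
        rw [Nat.cast_natAbs, Int.cast_abs]
      have e2 : |(discr K : ℝ)| = ((discr K).natAbs : ℝ) := by
        rw [Nat.cast_natAbs, Int.cast_abs]
      rw [e1, e2, h3]
      push_cast
      rw [Real.log_mul (by exact_mod_cast hIn) (pow_ne_zero _ (by exact_mod_cast hK)),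
        Real.log_pow]
    rw [h4, add_sub_cancel_right, ← h2]
    push_cast
    rw [Real.log_prod (fun w hw => by
      have h5 : ∏ w ∈ hfin'.toFinset, Ideal.absNorm (w.asIdeal ^ multiplicity w.asIdeal I) ≠ 0 := by
        rw [h2]
        exact hIn
      have h6 := prod_ne_zero_iff.1 h5 w hw
      exact_mod_cast h6)]
    refine sum_congr rfl fun w _ => ?_
    rw [map_pow]
    push_cast
    rw [Real.log_pow]
    rfl

/-- the logarithm of the norm of the part at `v` of the discriminant of `L` over `K` -/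
noncomputable def dl (v : Pl K) (L : Type) [Field L] [NumberField L] [Algebra K L] : ℝ :=
  ∑ w ∈ ab L v, dif K w

lemma dl_nonneg (v : Pl K) : 0 ≤ dl v L := sum_nonneg fun w _ => dif_nonneg w

/-- the logarithm of the norm of the discriminant of `L` over `K` -/
noncomputable def relDisc (K L : Type) [Field K] [NumberField K] [Field L] [NumberField L]
    [Algebra K L] : ℝ :=
  Real.log |(discr L : ℝ)| - finrank K L * Real.log |(discr K : ℝ)|

/-- the discriminant of the point in terms of the discriminant of the field -/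
lemma dsc_dif (x : L) (hd : (minpoly K x).discr ≠ 0) (S : Finset (Pl K)) :
    ∑ᶠ v ∈ ((S : Set (Pl K))ᶜ), dsc v x = (relDisc K L - ∑ v ∈ S, dl v L) +
      ∑ᶠ v ∈ ((S : Set (Pl K))ᶜ), (dsc v x - dl v L) := by
  classical
  obtain ⟨T1, h1, -⟩ := prod_pl hd
  obtain ⟨T2, h2, -⟩ := height_pl (K := K) x
  obtain ⟨F, hF0, hFs⟩ := dif_sum (K := K) (L := L)
  choose bel hbel using fun u : Pl L => exists_below (K := K) u
  set T3 : Finset (Pl K) := F.image fun w => bel (Sum.inr w) with hT3
  set T : Finset (Pl K) := T1 ∪ T2 ∪ T3 ∪ S with hT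
  have hz : ∀ v, v ∉ T → dsc v x = 0 := by
    intro v hv
    rw [hT, mem_union, mem_union, mem_union, not_or, not_or, not_or] at hv
    unfold dsc
    rw [h1 v hv.1.1.1, h2 v hv.1.1.2]
    ring
  have hz' : ∀ v, v ∉ T → dl v L = 0 := by
    intro v hv
    rw [hT, mem_union, mem_union, mem_union, not_or, not_or, not_or] at hv
    refine sum_eq_zero fun w hw => ?_
    cases w with
    | inl w => rfl
    | inr w =>
      apply hF0
      intro hwF
      apply hv.1.2
      rw [hT3, mem_image]
      exact ⟨w, hwF, ov_unique (hbel _) (mem_ab.1 hw)⟩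
  have hsum : ∀ g : Pl K → ℝ, (∀ v, v ∉ T → g v = 0) →
      ∑ᶠ v ∈ ((S : Set (Pl K))ᶜ), g v = ∑ v ∈ T \ S, g v := by
    intro g hg
    rw [finsum_mem_eq_sum_of_inter_support_eq (t := T \ S)]
    ext v
    simp only [Set.mem_inter_iff, Set.mem_compl_iff, mem_coe, Function.mem_support, mem_sdiff]
    constructor
    · rintro ⟨h3, h4⟩
      refine ⟨⟨?_, h3⟩, h4⟩
      by_contra h5
      exact h4 (hg v h5)
    · rintro ⟨⟨_, h3⟩, h4⟩
      exact ⟨h3, h4⟩
  rw [hsum _ hz, hsum _ (fun v hv => by rw [hz v hv, hz' v hv, sub_zero]), sum_sub_distrib]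
  have h3 : ∑ v ∈ T, dl v L = relDisc K L := by
    unfold dl relDisc
    rw [← hFs, ← sum_biUnion (s := T) (t := fun v => ab L v) (f := fun w => dif K w) (by
      intro v _ v' _ hvv
      rw [Function.onFun, disjoint_left]
      intro w hw hw'
      exact hvv (ov_unique (mem_ab.1 hw) (mem_ab.1 hw')))]
    have h4 : ∑ w ∈ F, dif K (Sum.inr w : Pl L) = ∑ w ∈ F.map ⟨Sum.inr, Sum.inr_injective⟩,
        dif K (w : Pl L) := by
      rw [sum_map]
      rfl
    rw [h4]
    symm
    refine sum_subset ?_ ?_
    · intro w hw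
      obtain ⟨w0, hw0, rfl⟩ := mem_map.1 hw
      refine mem_biUnion.2 ⟨bel (Sum.inr w0), ?_, mem_ab.2 (hbel _)⟩
      exact mem_union_left _ (mem_union_right _ (mem_image_of_mem _ hw0))
    · intro w _ hw
      cases w with
      | inl w => rfl
      | inr w =>
        apply hF0
        intro h5
        exact hw (mem_map.2 ⟨w, h5, rfl⟩)
  have h4 : ∑ v ∈ T \ S, dl v L + ∑ v ∈ S, dl v L = ∑ v ∈ T, dl v L :=
    sum_sdiff subset_union_right
  linarith

end Pool.Agent.H430.Dk
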