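import Pool.Agent.H430.Os.Main
import Pool.Agent.H430.Dk.Dif

/-!
The optimality of the theorem on clusters of conjugates.
-/

set_option autoImplicit false

namespace Pool.Agent.H430.Dk

open Finset NumberField IsDedekindDomain Height Module Polynomial
open Pool.Agent.W180.OP (Pl av wt fv)
open Pool.Agent.NH28 (nn ab mem_ab sum_nn one_le_nn nn_nonneg Ov ov_unique)
open Pool.Agent.H430.Cl
open Pool.Agent.H430.Ft
open Pool.Agent.H430.Os

variable {K : Type} [Field K] [NumberField K] {q : ℕ}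

theorem clusters_opt (a : Fin q → K) (ha : Function.Injective a) (m0 m1 : Fin q → ℕ) {r : ℕ}
    (hr : 1 ≤ r) (h0 : ∑ i, m0 i = r) (h1 : ∑ i, m1 i = r) (hdj : ∀ i, m0 i = 0 ∨ m1 i = 0)
    (hg : ∀ d, (∀ i, d ∣ m0 i ∧ d ∣ m1 i) → d = 1) :
    ∃ (S : Finset (Pl K)) (P : Pl K → Fin q → ℕ) (C : ℝ), (∀ v ∈ S, P v = m0 ∨ P v = m1) ∧
      (∃ v ∈ S, P v = m0) ∧ (∃ v ∈ S, P v = m1) ∧ ∀ B : ℝ,
        ∃ (L : Type) (_ : Field L) (_ : NumberField L) (_ : Algebra K L) (x : L),
          IntermediateField.adjoin K {x} = ⊤ ∧ finrank K L = r ∧ B < logHeight ![1, x] ∧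
          (∀ i, x ≠ algebraMap K L (a i)) ∧
          (∃ e : Pl L → Fin q, ∀ v ∈ S, (∀ w ∈ ab L v, B < prx v w (a (e w)) x) ∧
            ∀ i, ∑ w ∈ ab L v, (if e w = i then nn v w else 0) = P v i) ∧
          2 * r * logHeight ![1, x] - C ≤ ∑ v ∈ S, ∑ i, ∑ w ∈ ab L v, ∑ w' ∈ ab L v,
            nn v w * nn v w' * min (prx v w (a i) x) (prx v w' (a i) x) := by
  classical
  obtain ⟨S, P, ⟨v0, hv0, hP0⟩, ⟨v1, hv1, hP1⟩, c, C, κ, hc, hC, hκ, hρκ, t1,
    hcore⟩ := core a ha m0 m1 hr h0 h1 hdj hg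
  choose cl hcl0 hcl using fun t : Pl K × Fin q => prx_lb t.1 (a t.2)
  set c' : ℝ := ∑ v ∈ S, ∑ i, cl (v, i) with hc'
  have hc'0 : 0 ≤ c' := sum_nonneg fun v _ => sum_nonneg fun i _ => hcl0 _
  have hcv : ∀ v ∈ S, ∀ i, cl (v, i) ≤ c' := fun v hv i =>
    (single_le_sum (f := fun i => cl (v, i)) (fun i _ => hcl0 _) (mem_univ i)).trans
      (single_le_sum (f := fun v => ∑ i, cl (v, i)) (fun v _ => sum_nonneg fun i _ => hcl0 _) hv)
  have hr0 : (0 : ℝ) < r := by exact_mod_cast hr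
  have hr1 : (1 : ℝ) ≤ r := by exact_mod_cast hr
  have hms : ∀ v, ∑ i, mv P m0 m1 v i = r := by
    intro v
    unfold mv
    split_ifs
    · exact h0
    · exact h1
  refine ⟨S, mv P m0 m1, 3 * r * C + S.card * (2 * r * c * r + q * (c' * r ^ 2)), ?_,
    ⟨v0, hv0, ?_⟩, ⟨v1, hv1, ?_⟩, ?_⟩
  · intro v _
    unfold mv
    split_ifs
    · exact Or.inl rfl
    · exact Or.inr rfl
  · unfold mv
    rw [if_pos hP0]
  · unfold mv
    rw [if_neg hP1]
  intro B
  have hl3 : 0 < Real.log 3 := Real.log_pos (by norm_num)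
  obtain ⟨t3, ht3⟩ := exists_nat_gt ((2 * (|B| + C)) / Real.log 3)
  obtain ⟨t4, ht4⟩ := exists_nat_gt ((r * |B| + 2 * r * c) / κ)
  obtain ⟨hρ, hsum, L, i1, i2, i3, x, hx, hL, hxa, hlow, hup, e, he, hN⟩ :=
    hcore (max t1 (max t3 t4)) (le_max_left _ _)
  set t := max t1 (max t3 t4) with ht
  set H : ℝ := finrank ℚ K * (t * Real.log 3) with hH
  have hdK : (1 : ℝ) ≤ finrank ℚ K := by exact_mod_cast (finrank_pos : 0 < finrank ℚ K)
  have hHB : 2 * (|B| + C) < H := by
    have g1 : (t3 : ℝ) ≤ t := by exact_mod_cast (le_max_left t3 t4).trans (le_max_right t1 _)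
    rw [div_lt_iff₀ hl3] at ht3
    have g2 : (t3 : ℝ) * Real.log 3 ≤ t * Real.log 3 := mul_le_mul_of_nonneg_right g1 hl3.le
    have g3 : 1 * (t * Real.log 3) ≤ finrank ℚ K * (t * Real.log 3) :=
      mul_le_mul_of_nonneg_right hdK (by positivity)
    linarith
  have hmle : ∀ v i, (mv P m0 m1 v i : ℝ) ≤ r := by
    intro v i
    have := single_le_sum (f := mv P m0 m1 v) (fun i _ => Nat.zero_le _) (mem_univ i)
    rw [hms] at this
    exact_mod_cast this
  refine ⟨L, i1, i2, i3, x, hx, hL, ?_, hxa, ⟨e, fun v hv => ⟨fun w hw => ?_, fun i => ?_⟩⟩, ?_⟩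
  · have := le_abs_self B
    linarith
  · obtain ⟨g1, g2⟩ := he v hv w hw
    have g3 := hρκ t v hv
    have g4 : (t4 : ℝ) ≤ t := by exact_mod_cast (le_max_right t3 t4).trans (le_max_right t1 _)
    rw [div_lt_iff₀ hκ] at ht4
    have g5 : κ * t4 ≤ κ * t := mul_le_mul_of_nonneg_left g4 hκ.le
    have g6 : r * |B| < mv P m0 m1 v (e w) * prx v w (a (e w)) x := by linarith
    by_contra g7
    push Not at g7
    have g8 : (mv P m0 m1 v (e w) : ℝ) * prx v w (a (e w)) x ≤ r * |B| := by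
      calc _ ≤ (mv P m0 m1 v (e w) : ℝ) * |B| :=
            mul_le_mul_of_nonneg_left (g7.trans (le_abs_self B)) (Nat.cast_nonneg _)
        _ ≤ r * |B| := mul_le_mul_of_nonneg_right (hmle v _) (abs_nonneg B)
    linarith
  · rw [← hN v hv i]
    rfl
  · have hloc : ∀ v ∈ S, r * rh v t - (2 * r * c * r + q * (c' * r ^ 2)) ≤
        ∑ i, ∑ w ∈ ab L v, ∑ w' ∈ ab L v,
          nn v w * nn v w' * min (prx v w (a i) x) (prx v w' (a i) x) := by
      intro v hv
      refine le_trans ?_ (pair_lower a (mv P m0 m1 v) hc'0 (fun w hw i => by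
        have g1 := hcl (v, i) L w hw x (hxa i)
        have g2 := hcv v hv i
        simp only at g1
        linarith) e (he v hv))
      have g1 : ∑ i, Nv e v i ^ 2 / mv P m0 m1 v i = r := by
        rw [← Nat.cast_inj (R := ℝ).2 (hms v)]
        push_cast
        refine sum_congr rfl fun i _ => ?_
        rw [hN v hv i]
        rcases Nat.eq_zero_or_pos (mv P m0 m1 v i) with h | h
        · rw [h]
          simp
        · have : (mv P m0 m1 v i : ℝ) ≠ 0 := by exact_mod_cast h.ne'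
          field_simp
      rw [g1, hL]
      linarith
    have h2 := sum_le_sum hloc
    rw [sum_sub_distrib, ← mul_sum, sum_const, nsmul_eq_mul] at h2
    have h3 : r * (2 * H - C) ≤ r * ∑ v ∈ S, rh v t :=
      mul_le_mul_of_nonneg_left hsum hr0.le
    have h4 : r * logHeight ![1, x] ≤ r * (H + C) := mul_le_mul_of_nonneg_left hup hr0.le
    linarith


/-- the two forms of the inequality differ by an identity -/
theorem clusters_of_vojta {L E : Type} [Field L] [NumberField L]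
    [Field E] [NumberField E] [Algebra K L] [Algebra L E] [Algebra K E] [IsScalarTower K L E]
    [IsGalois K E] (a : Fin q → K) {x : L} (hx : IntermediateField.adjoin K {x} = ⊤)
    (S : Finset (Pl K)) (u : Pl K → Pl E) (hu : ∀ v ∈ S, Ov v (u v)) :
    ∑ v ∈ S, ∑ i, ∑ w ∈ ab L v, nn v w * prx v w (a i) x =
      ∑ v ∈ S, ∑ i, ∑ w ∈ ab L v, ∑ w' ∈ ab L v,
          nn v w * nn v w' * min (prx v w (a i) x) (prx v w' (a i) x) -
      (2 * finrank K L - 2) * logHeight ![1, x] + ∑ᶠ v ∈ ((S : Set (Pl K))ᶜ), dsc v x +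
      ∑ v ∈ S, ∑ p ∈ cjp K (algebraMap L E x), (rho v (u v) p.1 p.2 -
        ∑ i, min (prx v (u v) (a i) p.1) (prx v (u v) (a i) p.2)) := by
  classical
  have hd : (minpoly K x).discr ≠ 0 := by
    have := discr_ne_zero (K := K) (algebraMap L E x)
    rwa [minpoly.algebraMap_eq (algebraMap L E).injective] at this
  rw [dsc_sum x hd S]
  have hloc : ∀ v ∈ S, ∑ i, ∑ w ∈ ab L v, nn v w * prx v w (a i) x =
      ∑ i, ∑ w ∈ ab L v, ∑ w' ∈ ab L v,
          nn v w * nn v w' * min (prx v w (a i) x) (prx v w' (a i) x) - dsc v x +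
      ∑ p ∈ cjp K (algebraMap L E x), (rho v (u v) p.1 p.2 -
        ∑ i, min (prx v (u v) (a i) p.1) (prx v (u v) (a i) p.2)) := by
    intro v hv
    have h1 : ∀ i, ∑ w ∈ ab L v, ∑ w' ∈ ab L v,
          nn v w * nn v w' * min (prx v w (a i) x) (prx v w' (a i) x) =
        ∑ w ∈ ab L v, nn v w * prx v w (a i) x + ∑ p ∈ cjp K (algebraMap L E x),
          min (prx v (u v) (a i) p.1) (prx v (u v) (a i) p.2) := by
      intro i
      rw [← pair_sum hx (hu v hv), ← single_sum hx (hu v hv),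
        sum_pairs (algebraMap L E x) (fun y z => min (prx v (u v) (a i) y) (prx v (u v) (a i) z))]
      congr 1
      exact sum_congr rfl fun y _ => min_self _
    rw [sum_congr rfl (fun i _ => h1 i), sum_add_distrib, dsc_eq hx (hu v hv), sum_comm (s := univ)
      (t := cjp K (algebraMap L E x)), sum_sub_distrib]
    ring
  rw [sum_congr rfl hloc, sum_add_distrib, sum_sub_distrib]
  ring

end Pool.Agent.H430.Dk
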