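import Pool.Agent.H430.Gw.Sh5
import Pool.Agent.H430.Hf.Fin
import Pool.Agent.H430.Dk.Opt

/-!
Half of the discriminant cannot be lowered for generic points.
-/

set_option autoImplicit false

namespace Pool.Agent.H430.Dk

open Finset NumberField IsDedekindDomain Height Module Polynomial
open Pool.Agent.W180.OP (Pl av wt fv)
open Pool.Agent.NH28 (nn ab mem_ab sum_nn one_le_nn nn_nonneg Ov ov_unique)
open Pool.Agent.H430.Cl

/-- the sum over the pairs is at least the sum, up to a constant -/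
lemma pairs_ge {K : Type} [Field K] [NumberField K] {q : ℕ} (a : Fin q → K) (r : ℕ)
    (S : Finset (Pl K)) : ∃ C : ℝ, 0 ≤ C ∧ ∀ (L : Type) [Field L] [NumberField L] [Algebra K L],
      finrank K L = r → ∀ x : L, (∀ i, x ≠ algebraMap K L (a i)) →
      ∑ v ∈ S, ∑ i, ∑ w ∈ ab L v, nn v w * prx v w (a i) x - C ≤
        ∑ v ∈ S, ∑ i, ∑ w ∈ ab L v, ∑ w' ∈ ab L v,
          nn v w * nn v w' * min (prx v w (a i) x) (prx v w' (a i) x) := by
  classical
  choose cl hcl0 hcl using fun t : Pl K × Fin q => prx_lb t.1 (a t.2)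
  refine ⟨∑ v ∈ S, ∑ i, cl (v, i) * r ^ 2, sum_nonneg fun v _ => sum_nonneg fun i _ =>
    mul_nonneg (hcl0 _) (by positivity), fun L _ _ _ hL x hx => ?_⟩
  rw [← sum_sub_distrib]
  refine sum_le_sum fun v _ => ?_
  rw [← sum_sub_distrib]
  refine sum_le_sum fun i _ => ?_
  set c := cl (v, i) with hc
  have hc0 : 0 ≤ c := hcl0 _
  have hlow : ∀ w ∈ ab L v, -c ≤ prx v w (a i) x := fun w hw => hcl (v, i) L w hw x (hx i)
  have h1 : ∀ w ∈ ab L v, ∀ w' ∈ ab L v, (if w = w' then nn v w * prx v w (a i) x else 0) -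
      nn v w * nn v w' * c ≤ nn v w * nn v w' * min (prx v w (a i) x) (prx v w' (a i) x) := by
    intro w hw w' hw'
    have n1 := one_le_nn (mem_ab.1 hw)
    have n2 := one_le_nn (mem_ab.1 hw')
    have hnn : 0 ≤ nn v w * nn v w' := by positivity
    by_cases h : w = w'
    · subst h
      rw [if_pos rfl, min_self]
      have h2 := hlow w hw
      have h3 : 0 ≤ (nn v w * nn v w - nn v w) * (prx v w (a i) x + c) :=
        mul_nonneg (by nlinarith) (by linarith)
      have h4 : 0 ≤ nn v w * c := by positivity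
      linarith
    · rw [if_neg h]
      have h2 : -c ≤ min (prx v w (a i) x) (prx v w' (a i) x) :=
        le_min (hlow w hw) (hlow w' hw')
      have h3 := mul_le_mul_of_nonneg_left h2 hnn
      linarith
  have h2 : ∑ w ∈ ab L v, ∑ w' ∈ ab L v, ((if w = w' then nn v w * prx v w (a i) x else 0) -
      nn v w * nn v w' * c) = ∑ w ∈ ab L v, nn v w * prx v w (a i) x - c * r ^ 2 := by
    have h3 : ∀ w ∈ ab L v, ∑ w' ∈ ab L v, ((if w = w' then nn v w * prx v w (a i) x else 0) -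
        nn v w * nn v w' * c) = nn v w * prx v w (a i) x - nn v w * (c * r) := by
      intro w hw
      rw [sum_sub_distrib, sum_ite_eq, if_pos hw]
      congr 1
      have h4 : ∀ w' : Pl L, nn v w * nn v w' * c = nn v w' * (nn v w * c) := fun w' => by ring
      rw [sum_congr rfl fun w' _ => h4 w', ← sum_mul, sum_nn, hL]
      ring
    rw [sum_congr rfl h3, sum_sub_distrib]
    congr 1
    rw [← sum_mul, sum_nn, hL]
    ring
  rw [← h2]
  exact sum_le_sum fun w hw => sum_le_sum fun w' hw' => h1 w hw w' hw'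

theorem half_opt (r : ℕ) (hr : 0 < r) :
    ∃ a : Fin (2 * r) → ℚ, Function.Injective a ∧ ∃ S0 : Finset (Pl ℚ), ∀ S, S0 ⊆ S →
      ∀ Z : Finset (Fin (r + 1) → ℚ), (∀ z ∈ Z, z ≠ 0) → ∀ ε : ℝ, 0 < ε → ∀ C B : ℝ,
      ∃ (L : Type) (_ : Field L) (_ : NumberField L) (_ : Algebra ℚ L) (x : L),
        IntermediateField.adjoin ℚ {x} = ⊤ ∧ finrank ℚ L = r ∧
        (∀ i, x ≠ algebraMap ℚ L (a i)) ∧
        (∀ z ∈ Z, ∑ j, z j * (minpoly ℚ x).coeff j ≠ 0) ∧ B < logHeight ![1, x] ∧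
        ∀ (E : Type) [Field E] [NumberField E] [Algebra ℚ E] [Algebra L E] [IsScalarTower ℚ L E]
          [IsGalois ℚ E] (u : Pl ℚ → Pl E), (∀ v ∈ S, Ov v (u v)) →
          ∀ D : ℝ, D = ∑ᶠ v ∈ ((S : Set (Pl ℚ))ᶜ), dsc v x +
            ∑ v ∈ S, ∑ p ∈ cjp ℚ (algebraMap L E x), (rho v (u v) p.1 p.2 -
              ∑ i, min (prx v (u v) (a i) p.1) (prx v (u v) (a i) p.2)) →
          (2 - ε) * logHeight ![1, x] + D / 2 + C ≤
            ∑ v ∈ S, ∑ i, ∑ w ∈ ab L v, nn v w * prx v w (a i) x ∧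
          (2 * r - 2 - ε) * logHeight ![1, x] ≤ D := by
  classical
  obtain ⟨a, ha, S0, hS0⟩ := Pool.Agent.H430.Gw.sharp r hr
  refine ⟨a, ha, S0, fun S hS Z hZ ε hε C B => ?_⟩
  obtain ⟨Z0, hZ0, hcore⟩ := Pool.Agent.H430.Hf.half_core a ha r
  obtain ⟨C1, hC1⟩ := hcore S (ε / 3) (by positivity)
  obtain ⟨C2, hC20, hC2⟩ := pairs_ge a r S
  set ker : (Fin (r + 1) → ℚ) → Submodule ℚ (Fin (r + 1) → ℚ) := fun z =>
    LinearMap.ker (∑ j, z j • LinearMap.proj (R := ℚ) (φ := fun _ : Fin (r + 1) => ℚ) j) with hker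
  obtain ⟨𝒲, hgw⟩ := Pool.Agent.H430.Gw.gw_max a ha r
  obtain ⟨C3, hC3⟩ := hgw S 1 one_pos
  set C0 : ℝ := max (C2 / 2 + C) (max (C1 / 2) (C3 + (r + 2 + ε / 3) * |B|)) with hC0
  obtain ⟨L, i1, i2, i3, x, hx, hL, hxa, hW, hA⟩ := hS0 S hS 0 hr ((Z ∪ Z0).image ker)
    (r + 1 - ε / 3) C0 (by
      push_cast
      linarith)
  have hz : ∀ z ∈ Z ∪ Z0, ∑ j, z j * (minpoly ℚ x).coeff j ≠ 0 := by
    intro z hz h0
    have hzne : z ≠ 0 := by
      rcases mem_union.1 hz with h | h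
      · exact hZ z h
      · exact hZ0 z h
    have h1 := hW (ker z) (mem_image_of_mem _ hz) (by
      rw [hker]
      rw [LinearMap.mem_ker, LinearMap.sum_apply]
      simp only [LinearMap.smul_apply, LinearMap.proj_apply, smul_eq_mul]
      exact h0)
    have h2 : finrank ℚ (ker z) < r + 1 := by
      have h3 : ker z ≠ ⊤ := by
        intro h4
        apply hzne
        funext j
        have h5 : (Pi.single j 1 : Fin (r + 1) → ℚ) ∈ ker z := by rw [h4]; trivial
        rw [hker, LinearMap.mem_ker, LinearMap.sum_apply] at h5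
        simp only [LinearMap.smul_apply, LinearMap.proj_apply, smul_eq_mul] at h5
        rw [sum_eq_single j (fun b _ hb => by rw [Pi.single_eq_of_ne hb, mul_zero])
          (fun h => absurd (mem_univ j) h), Pi.single_eq_same, mul_one] at h5
        exact h5
      have h6 := Submodule.finrank_lt h3
      rwa [finrank_fin_fun] at h6
    omega
  set h := logHeight ![1, x] with hh
  set A := ∑ v ∈ S, ∑ i, ∑ w ∈ ab L v, nn v w * prx v w (a i) x with hAdef
  set Q := ∑ v ∈ S, ∑ i, ∑ w ∈ ab L v, ∑ w' ∈ ab L v,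
          nn v w * nn v w' * min (prx v w (a i) x) (prx v w' (a i) x) with hQdef
  have h3 : A - C2 ≤ Q := hC2 L hL x hxa
  have hC01 : C2 / 2 + C ≤ C0 := le_max_left _ _
  have hC02 : C1 / 2 ≤ C0 := (le_max_left _ _).trans (le_max_right _ _)
  have hC03 : C3 + (r + 2 + ε / 3) * |B| ≤ C0 := (le_max_right _ _).trans (le_max_right _ _)
  have hh0 : 0 ≤ h := logHeight_nonneg _
  have hcor : ∀ (E : Type) [Field E] [NumberField E] [Algebra ℚ E] [Algebra L E]
      [IsScalarTower ℚ L E] [IsGalois ℚ E] (u : Pl ℚ → Pl E), (∀ v ∈ S, Ov v (u v)) →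
      A + Q ≤ (2 * (r + 1) + ε / 3) * h + C1 := by
    intro E _ _ _ _ _ _ u hu
    have h1 := hC1 L E x hx hL (fun z hz' => hz z (mem_union_right _ hz')) u hu
    have h2 : ∑ v ∈ S, ∑ i, (∑ y ∈ cj ℚ (algebraMap L E x), prx v (u v) (a i) y +
          ∑ y ∈ cj ℚ (algebraMap L E x), ∑ z ∈ cj ℚ (algebraMap L E x),
            min (prx v (u v) (a i) y) (prx v (u v) (a i) z)) = A + Q := by
      rw [hAdef, hQdef, ← sum_add_distrib]
      refine sum_congr rfl fun v hv => ?_
      rw [← sum_add_distrib]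
      refine sum_congr rfl fun i _ => ?_
      rw [single_sum hx (hu v hv), pair_sum hx (hu v hv)]
    rwa [h2] at h1
  refine ⟨L, i1, i2, i3, x, hx, hL, hxa, fun z hz' => hz z (mem_union_left _ hz'), ?_, ?_⟩
  · have h4 := hC3 L x hx hL hxa (r + 1) (fun W _ _ => by omega)
    have h5 : A ≤ (r + 1 + (r + 1 : ℕ) + 1) * h + C3 := by
      refine le_trans ?_ h4
      refine sum_le_sum fun v _ => sum_le_sum fun i _ => ?_
      exact le_max_left _ _
    push_cast at h5
    have h6 : (r + 2 + ε / 3) * |B| < (r + 2 + ε / 3) * h := by linarith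
    have h7 := lt_of_mul_lt_mul_left h6 (by positivity)
    exact (le_abs_self B).trans_lt h7
  · intro E _ _ _ _ _ _ u hu D hD
    have h4 := clusters_of_vojta a hx S u hu
    rw [hL] at h4
    have h5 := hcor E u hu
    have h6 : D = A - Q + (2 * r - 2) * h := by
      rw [hD]
      linarith
    constructor
    · rw [h6]
      nlinarith
    · rw [h6]
      nlinarith

end Pool.Agent.H430.Dk
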